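import Pool.Agent.J4.H63.LQ.Per
import Pool.Agent.J4.H63.LQ.Gen3

/-!
# The primes with a given trace are the primes `a² + m²` with `m` in certain classes modulo `8 D`
-/

set_option autoImplicit false

namespace Pool.Agent.J4.H63.LQ

open Finset Pool.Agent.R441.Q4

open Classical in
/-- the number of the primes `p ≤ x` of good reduction with trace `r` -/
noncomputable def piN (D r : ℤ) (x : ℝ) : ℕ :=
  ((range (⌊x⌋₊ + 1)).filter (fun p : ℕ => p.Prime ∧ ¬ (p : ℤ) ∣ 2 * D ∧ tr (-D) 0 p = r)).card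

theorem cond_PD {D : ℤ} (hD : D ≠ 0) : Cond (8 * D.natAbs) (PD D) where
  pos := by
    have : 0 < D.natAbs := Int.natAbs_pos.2 hD
    omega
  congr := PD.congr hD
  neg := PD.neg
  cop := PD.cop

/-- every odd prime of good reduction has an even trace; if the trace is not zero, the prime is a sum of two squares -/
theorem exists_rep (D : ℤ) {p : ℕ} (hp : p.Prime) (hD : ¬ (p : ℤ) ∣ 2 * D) :
    tr (-D) 0 p = 0 ∨ ∃ z : ZI, z.norm = p ∧ tr (-D) 0 p = 2 * z.re := by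
  have : Fact p.Prime := ⟨hp⟩
  have h2 : p ≠ 2 := by
    rintro rfl
    exact hD (dvd_mul_right 2 D)
  have hD' : ¬ (p : ℤ) ∣ D := fun h => hD (Dvd.dvd.mul_left h 2)
  have h4 : p % 4 = 1 ∨ p % 4 = 3 := by
    have := hp.eq_two_or_odd
    omega
  rcases h4 with h4 | h4
  · right
    obtain ⟨a, b, hab⟩ := Nat.Prime.sq_add_sq (p := p) (by omega)
    have hn : (⟨a, b⟩ : ZI).norm = p := by
      rw [norm_def']
      show (a : ℤ) ^ 2 + (b : ℤ) ^ 2 = p
      exact_mod_cast hab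
    have hod : Od (⟨a, b⟩ : ZI) := by
      unfold Od
      rw [hn]
      omega
    obtain ⟨w, hw, hpr⟩ := exists_pr hod
    obtain ⟨π, hπ⟩ : ∃ π, π = w * (⟨a, b⟩ : ZI) := ⟨_, rfl⟩
    rw [← hπ] at hpr
    have hn2 : π.norm = p := by rw [hπ, Zsqrtd.norm_mul, hw, hn, one_mul]
    obtain ⟨c, d⟩ := π
    have hcd : c ^ 2 + d ^ 2 = p := by
      rw [norm_def'] at hn2
      exact hn2
    have ht := tr_primary h2 hcd hpr hD'
    have hop := op_of_norm hp h2 hcd
    have hχ : (Q ⟨c, d⟩ D).norm = 1 := by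
      rw [Q_prime hop.pr]
      apply q4_norm hop
      intro h
      apply hD'
      obtain ⟨k, hk⟩ := h
      have h5 := congrArg Zsqrtd.norm hk
      rw [Zsqrtd.norm_mul, hn2, Zsqrtd.norm_intCast] at h5
      have h6 : (p : ℤ) ∣ D * D := ⟨_, h5⟩
      rcases (Nat.prime_iff_prime_int.1 hp).dvd_or_dvd h6 with h | h <;> exact h
    refine ⟨star (Q ⟨c, d⟩ D) * ⟨c, d⟩, ?_, ?_⟩
    · rw [Zsqrtd.norm_mul, Zsqrtd.norm_conj, hχ, hn2, one_mul]
    · have h7 := congrArg Zsqrtd.re ht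
      have h8 : Q ⟨c, d⟩ D * star (⟨c, d⟩ : ZI) = star (star (Q ⟨c, d⟩ D) * ⟨c, d⟩) := by
        rw [star_mul, star_star, mul_comm]
      rw [h8, Zsqrtd.re_intCast, Zsqrtd.re_add, Zsqrtd.re_star] at h7
      linarith
  · left
    exact tr_three (-D) h4

theorem piN_odd (D : ℤ) (r : ℤ) (x : ℝ) (hr : r % 2 = 1) : piN D r x = 0 := by
  unfold piN
  rw [card_eq_zero, filter_eq_empty_iff]
  intro p _
  rintro ⟨hp, hD, ht⟩
  rcases exists_rep D hp hD with h | ⟨z, -, h⟩ <;> omega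

/-- the primes with trace `2 a` -/
theorem piN_eq (D : ℤ) (a : ℤ) (x : ℝ) (ha : a ≠ 0) (hx : 0 ≤ x) : piN D (2 * a) x = np (PD D) a x := by
  classical
  have hcast : ∀ m : ℕ, ((a.natAbs ^ 2 + m ^ 2 : ℕ) : ℤ) = a ^ 2 + (m : ℤ) ^ 2 := by
    intro m
    push_cast
    rw [sq_abs]
  have hfl : ∀ m : ℕ, 1 ≤ m → (m ≤ ⌊Real.sqrt (x - (a : ℝ) ^ 2)⌋₊ ↔ a.natAbs ^ 2 + m ^ 2 ≤ ⌊x⌋₊) := by
    intro m hm
    have hm1 : (1 : ℝ) ≤ m := by exact_mod_cast hm
    rw [Nat.le_floor_iff (Real.sqrt_nonneg _), Nat.le_floor_iff hx, Real.le_sqrt' (by linarith)]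
    have h1 : ((a.natAbs ^ 2 + m ^ 2 : ℕ) : ℝ) = (a : ℝ) ^ 2 + (m : ℝ) ^ 2 := by
      push_cast
      rw [Nat.cast_natAbs]
      push_cast
      rw [sq_abs]
    rw [h1]
    constructor
    · intro h
      linarith
    · intro h
      linarith
  unfold piN np
  symm
  apply card_bij (fun m _ => a.natAbs ^ 2 + m ^ 2)
  · intro m hm
    rw [mem_filter, mem_Icc] at hm
    obtain ⟨⟨hm1, hm2⟩, hp, hG⟩ := hm
    rw [hfl m hm1] at hm2
    rw [mem_filter, mem_range]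
    have hcop := hG.cop
    rw [← hcast m] at hcop
    have hpz := Nat.prime_iff_prime_int.1 hp
    have hD2 : ¬ (((a.natAbs ^ 2 + m ^ 2 : ℕ) : ℤ)) ∣ 2 * D := by
      intro hd
      have h1 : (((a.natAbs ^ 2 + m ^ 2 : ℕ) : ℤ)) ∣ ((8 * D.natAbs : ℕ) : ℤ) := by
        refine hd.trans ?_
        push_cast
        have e : (8 : ℤ) * |D| = 2 * (4 * |D|) := by ring
        rw [e]
        apply mul_dvd_mul_left
        exact ((self_dvd_abs D)).mul_left 4
      exact hpz.not_unit (hcop.isUnit_of_dvd' dvd_rfl h1)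
    refine ⟨by omega, hp, hD2, ?_⟩
    have : Fact (a.natAbs ^ 2 + m ^ 2).Prime := ⟨hp⟩
    have h2 : a.natAbs ^ 2 + m ^ 2 ≠ 2 := by
      intro h
      rw [h] at hD2
      exact hD2 (dvd_mul_right _ _)
    have hz : (⟨a, m⟩ : ZI).norm = ((a.natAbs ^ 2 + m ^ 2 : ℕ) : ℤ) := by
      rw [norm_def', hcast]
    exact (tr_iff h2 hz (fun h => hD2 (Dvd.dvd.mul_left h 2))).2 hG
  · intro m _ m' _ h
    have : m ^ 2 = m' ^ 2 := by
      have h1 : a.natAbs ^ 2 + m ^ 2 = a.natAbs ^ 2 + m' ^ 2 := h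
      omega
    exact Nat.pow_left_injective (by norm_num) this
  · intro p hp
    rw [mem_filter, mem_range] at hp
    obtain ⟨hpx, hp, hD, ht⟩ := hp
    have : Fact p.Prime := ⟨hp⟩
    have h2 : p ≠ 2 := by
      rintro rfl
      exact hD (dvd_mul_right 2 D)
    rcases exists_rep D hp hD with h0 | ⟨z, hz, h1⟩
    · omega
    · have hre : z.re = a := by omega
      have hn : a ^ 2 + z.im ^ 2 = p := by
        rw [norm_def', hre] at hz
        exact hz
      obtain ⟨him, -⟩ := Pool.Agent.N782.GN.LT.prime_ne_sq hp hn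
      have hm1 : 1 ≤ z.im.natAbs := Int.natAbs_pos.2 him
      have hpe : a.natAbs ^ 2 + z.im.natAbs ^ 2 = p := by
        zify
        rw [sq_abs, sq_abs]
        exact hn
      refine ⟨z.im.natAbs, ?_, hpe⟩
      rw [mem_filter, mem_Icc]
      refine ⟨⟨hm1, ?_⟩, ?_, ?_⟩
      · rw [hfl _ hm1, hpe]
        omega
      · rw [hpe]
        exact hp
      · have hz' : (⟨a, (z.im.natAbs : ℤ)⟩ : ZI).norm = p := by
          rw [norm_def']
          show a ^ 2 + (z.im.natAbs : ℤ) ^ 2 = p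
          rw [Int.natCast_natAbs, sq_abs]
          exact hn
        exact (tr_iff h2 hz' (fun h => hD (Dvd.dvd.mul_left h 2))).1 ht

open Classical in
/-- **Lang–Trotter for almost all traces** -/
theorem lt_quartic {D : ℤ} (hD : D ≠ 0) (ε : ℝ) (A : ℕ) (hε : 0 < ε) : ∃ R₀ : ℝ, ∀ R : ℝ, R₀ ≤ R →
    (((Icc ⌈-R⌉ ⌊R⌋).filter (fun r : ℤ => ¬ Tr (8 * D.natAbs) (PD D) (piN D) ε A R r)).card : ℝ) ≤
      R / (Real.log R) ^ A := by
  exact lt_all (cond_PD hD) (piN D) (fun a x ha hx => piN_eq D a x ha hx) (fun r x hr => piN_odd D r x hr) ε A hε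

end Pool.Agent.J4.H63.LQ
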