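import Pool.Agent.N782.GN.LTe

/-!
# Averages for a condition on `a + m i` modulo `q` (after the starting file `N782/GN/LTc`)
-/

set_option autoImplicit false

namespace Pool.Agent.J4.H63.LQ

open Finset Filter Topology Pool.Agent.N782.GN

/-- a condition on `a + m i` modulo `q`, which implies that the norm is prime to `q` -/
structure Cond (q : ℕ) (P : ℤ → ℤ → Prop) : Prop where
  pos : 1 ≤ q
  congr : ∀ {a m a' m' : ℤ}, (q : ℤ) ∣ a - a' → (q : ℤ) ∣ m - m' → P a m → P a' m'
  neg : ∀ {a m : ℤ}, P a m → P a (-m)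
  cop : ∀ {a m : ℤ}, P a m → IsCoprime (a ^ 2 + m ^ 2) (q : ℤ)

variable {q : ℕ} {P : ℤ → ℤ → Prop}

theorem Cond.congr_iff (H : Cond q P) {a m a' m' : ℤ} (ha : (q : ℤ) ∣ a - a') (hm : (q : ℤ) ∣ m - m') :
    P a m ↔ P a' m' := by
  constructor
  · exact H.congr ha hm
  · refine H.congr ?_ ?_
    · rw [← neg_sub]
      exact (dvd_neg).2 ha
    · rw [← neg_sub]
      exact (dvd_neg).2 hm

theorem Cond.neg_iff (H : Cond q P) {a m : ℤ} : P a (-m) ↔ P a m := by
  constructor
  · intro h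
    have := H.neg h
    rwa [neg_neg] at this
  · exact H.neg

open Classical in
variable (q P) in
/-- the classes modulo `q` -/
noncomputable def cl (a : ℤ) : Finset ℕ := (range q).filter (fun m : ℕ => P a m)

open Classical in
variable (P) in
/-- half of the sum of `Λ(l² + m²)` over `|m| ≤ M` with the condition, `a = σ l` -/
noncomputable def fD (σ : ℤ) (l : ℤ) (M : ℝ) : ℝ :=
  1 / 2 * ∑ m ∈ (Icc ⌈-M⌉ ⌊M⌋).filter (fun m : ℤ => P (σ * l) m), ArithmeticFunction.vonMangoldt (l ^ 2 + m ^ 2).natAbs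

variable (q P) in
/-- the density -/
noncomputable def sD (σ : ℤ) (l : ℤ) : ℝ :=
  ((cl q P (σ * l)).card : ℝ) / (q : ℝ) * (gq q l * SS l)

/-- the sum over the classes -/
theorem fD_eq (H : Cond q P) (σ l : ℤ) (M : ℝ) :
    fD P σ l M = 1 / 2 * ∑ m0 ∈ cl q P (σ * l), ∑ m ∈ (Icc ⌈-M⌉ ⌊M⌋).filter (fun m => (q : ℤ) ∣ m - m0),
      ArithmeticFunction.vonMangoldt (l ^ 2 + m ^ 2).natAbs := by
  classical
  unfold fD
  congr 1
  have hq : (0 : ℤ) < (q : ℤ) := by
    have := H.pos
    omega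
  rw [sum_filter]
  simp_rw [sum_filter]
  rw [sum_comm]
  refine sum_congr rfl fun m _ => ?_
  rw [← sum_filter]
  set F := ArithmeticFunction.vonMangoldt (l ^ 2 + m ^ 2).natAbs with hF
  have h1 : (m % (q : ℤ)).toNat < q := by
    have h2 := Int.emod_nonneg m hq.ne'
    have h3 := Int.emod_lt_of_pos m hq
    omega
  have h0 : (((m % (q : ℤ)).toNat : ℕ) : ℤ) = m % (q : ℤ) :=
    Int.toNat_of_nonneg (Int.emod_nonneg m hq.ne')
  have hdv : (q : ℤ) ∣ m - (((m % (q : ℤ)).toNat : ℕ) : ℤ) := by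
    rw [h0]
    exact Int.dvd_self_sub_emod
  have h4 : (cl q P (σ * l)).filter (fun m0 : ℕ => (q : ℤ) ∣ m - m0) =
      if P (σ * l) m then {(m % (q : ℤ)).toNat} else ∅ := by
    ext m0
    unfold cl
    rw [mem_filter, mem_filter, mem_range]
    constructor
    · rintro ⟨⟨h5, h6⟩, h7⟩
      have h8 : P (σ * l) m := (H.congr_iff (by simp) h7).2 h6
      rw [if_pos h8, mem_singleton]
      have h9 : m % (q : ℤ) = (m0 : ℤ) % (q : ℤ) :=
        Int.emod_eq_emod_iff_emod_sub_eq_zero.2 (Int.emod_eq_zero_of_dvd h7)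
      rw [h9, Int.emod_eq_of_lt (by omega) (by exact_mod_cast h5)]
      simp
    · intro h5
      split_ifs at h5 with h6
      · rw [mem_singleton] at h5
        subst h5
        exact ⟨⟨h1, (H.congr_iff (by simp) hdv).1 h6⟩, hdv⟩
      · simp at h5
  rw [h4]
  split_ifs
  · rw [sum_singleton]
  · rw [sum_empty]

theorem avgD (H : Cond q P) (σ : ℤ) (hσ : σ ^ 2 = 1) : Avg (fun L => Icc 1 ⌊L⌋) (fD P σ) (sD q P σ) where
  mono := fun l y z h => by
    classical
    unfold fD
    refine mul_le_mul_of_nonneg_left ?_ (by norm_num)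
    apply sum_le_sum_of_subset_of_nonneg
    · apply filter_subset_filter
      exact Icc_subset_Icc (Int.ceil_le_ceil (by linarith)) (Int.floor_le_floor h)
    · intro m _ _
      exact ArithmeticFunction.vonMangoldt_nonneg
  s0 := fun L l hl => by
    rw [mem_box] at hl
    have h1 := (c_ssl l (by omega)).2
    unfold sD
    have h2 : 0 ≤ gq q l := by
      unfold gq
      refine div_nonneg (by positivity) (prod_nonneg fun p hp => ?_)
      rw [mem_filter] at hp
      have hp1 := Nat.prime_of_mem_primeFactors hp.1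
      have h3 : 3 ≤ p := by
        have := hp1.two_le
        have := hp.2.1
        omega
      have h3' : (3 : ℝ) ≤ p := by exact_mod_cast h3
      have h4 : ((ZMod.χ₄ (p : ZMod 4) : ℤ) : ℝ) ≤ 1 := by
        have : (ZMod.χ₄ (p : ZMod 4) : ℤ) ≤ 1 := by
          rw [ZMod.χ₄_nat_eq_if_mod_four]
          split_ifs <;> norm_num
        exact_mod_cast this
      rw [sub_nonneg, div_le_one (by linarith)]
      linarith
    positivity
  triv := ⟨9, by norm_num, fun L M hM3 hLM l hl => by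
    classical
    rw [mem_box] at hl
    have h1 := f1_triv l M hM3 hl.1 (hl.2.trans hLM)
    have hM : 1 ≤ M := by linarith
    have h2 := two_sided hM (fun m => ArithmeticFunction.vonMangoldt (l ^ 2 + m ^ 2).natAbs) (fun m => by
      simp only [neg_sq])
    have h3 := vM_sq (L := M) (l := l) (by rw [mem_box]; exact ⟨hl.1, hl.2.trans hLM⟩)
    rw [abs_of_nonneg ArithmeticFunction.vonMangoldt_nonneg] at h3
    have hlog : 0 ≤ Real.log M := Real.log_nonneg hM
    unfold fD
    have h4 : ∑ m ∈ (Icc ⌈-M⌉ ⌊M⌋).filter (fun m : ℤ => P (σ * l) m),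
        ArithmeticFunction.vonMangoldt (l ^ 2 + m ^ 2).natAbs ≤
        ∑ m ∈ Icc ⌈-M⌉ ⌊M⌋, ArithmeticFunction.vonMangoldt (l ^ 2 + m ^ 2).natAbs :=
      sum_le_sum_of_subset_of_nonneg (filter_subset _ _) fun _ _ _ => ArithmeticFunction.vonMangoldt_nonneg
    have h5 : 2 * Real.log M ≤ 2 * (M * Real.log M) := by nlinarith
    unfold f1 at h1
    nlinarith⟩
  avg := fun ε A hε => by
    classical
    have hq1 : 1 ≤ q := H.pos
    obtain ⟨C, hC, h⟩ := c_mainx ε A q hε hq1
    refine ⟨C * (q : ℝ) ^ 2, by positivity, fun M L hM3 h1 h2 => ?_⟩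
    have hM1 : 1 < M := by linarith
    have hε6 : ε ≤ 1 / 6 := by
      have h2 : M ^ (2 / 3 + ε) ≤ M ^ (1 - ε) := h1.trans h2
      have h3 := (Real.rpow_le_rpow_left_iff hM1).1 h2
      linarith
    have hP : Pr ε M L := ⟨hε, hε6, hM3, h1, h2⟩
    have hL := hP.hL
    have hlog := hP.hlog
    have hX : 0 ≤ C * L * M / (Real.log M) ^ A := by positivity
    have hq : (0 : ℤ) < (q : ℤ) := by
      have := H.pos
      omega
    have hqr : (0 : ℝ) < (q : ℝ) := by exact_mod_cast hq
    -- split `l` into classes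
    have e1 : ∑ l ∈ Icc 1 ⌊L⌋, |fD P σ l M - M * sD q P σ l| =
        ∑ l0 ∈ range q, ∑ l ∈ (Icc 1 ⌊L⌋).filter (fun l => (q : ℤ) ∣ l - l0), |fD P σ l M - M * sD q P σ l| := by
      simp_rw [sum_filter]
      rw [sum_comm]
      refine sum_congr rfl fun l _ => ?_
      have h0 : (((l % (q : ℤ)).toNat : ℕ) : ℤ) = l % (q : ℤ) := Int.toNat_of_nonneg (Int.emod_nonneg l hq.ne')
      have h3 := Int.emod_lt_of_pos l hq
      rw [sum_eq_single (l % (q : ℤ)).toNat]
      · rw [if_pos]
        rw [h0]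
        exact Int.dvd_self_sub_emod
      · intro l0 hl0 hne
        rw [mem_range] at hl0
        rw [if_neg]
        intro hd
        apply hne
        have h9 : l % (q : ℤ) = (l0 : ℤ) % (q : ℤ) :=
          Int.emod_eq_emod_iff_emod_sub_eq_zero.2 (Int.emod_eq_zero_of_dvd hd)
        rw [h9, Int.emod_eq_of_lt (by omega) (by exact_mod_cast hl0)]
        simp
      · intro hn
        exfalso
        apply hn
        rw [mem_range]
        omega
    rw [e1]
    have e2 : ∀ l0 ∈ range q, ∑ l ∈ (Icc 1 ⌊L⌋).filter (fun l => (q : ℤ) ∣ l - l0), |fD P σ l M - M * sD q P σ l| ≤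
        (q : ℝ) * (C * L * M / (Real.log M) ^ A) := by
      intro l0 _
      have e3 : ∀ l ∈ (Icc 1 ⌊L⌋).filter (fun l => (q : ℤ) ∣ l - l0), |fD P σ l M - M * sD q P σ l| ≤
          ∑ m0 ∈ cl q P (σ * l0), |∑ m ∈ (Icc ⌈-M⌉ ⌊M⌋).filter (fun m => (q : ℤ) ∣ m - m0),
            ArithmeticFunction.vonMangoldt (l ^ 2 + m ^ 2).natAbs - 2 * M / q * (gq q l * SS l)| := by
        intro l hl
        rw [mem_filter] at hl
        have hcl : cl q P (σ * l) = cl q P (σ * l0) := by
          unfold cl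
          apply filter_congr
          intro m _
          apply H.congr_iff
          · rw [← mul_sub]
            exact Dvd.dvd.mul_left hl.2 σ
          · simp
        have e4 : fD P σ l M - M * sD q P σ l = 1 / 2 * ∑ m0 ∈ cl q P (σ * l0),
            (∑ m ∈ (Icc ⌈-M⌉ ⌊M⌋).filter (fun m => (q : ℤ) ∣ m - m0),
            ArithmeticFunction.vonMangoldt (l ^ 2 + m ^ 2).natAbs - 2 * M / q * (gq q l * SS l)) := by
          rw [fD_eq H, sum_sub_distrib, sum_const, nsmul_eq_mul, hcl]
          unfold sD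
          rw [hcl]
          ring
        rw [e4, abs_mul, abs_of_pos (by norm_num : (0 : ℝ) < 1 / 2)]
        have e5 := abs_sum_le_sum_abs (fun m0 : ℕ => ∑ m ∈ (Icc ⌈-M⌉ ⌊M⌋).filter (fun m => (q : ℤ) ∣ m - m0),
            ArithmeticFunction.vonMangoldt (l ^ 2 + m ^ 2).natAbs - 2 * M / q * (gq q l * SS l)) (cl q P (σ * l0))
        have e6 := abs_nonneg (∑ m0 ∈ cl q P (σ * l0),
            (∑ m ∈ (Icc ⌈-M⌉ ⌊M⌋).filter (fun m => (q : ℤ) ∣ m - m0),
            ArithmeticFunction.vonMangoldt (l ^ 2 + m ^ 2).natAbs - 2 * M / q * (gq q l * SS l)))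
        linarith
      refine (sum_le_sum e3).trans ?_
      rw [sum_comm]
      have e4 : ∀ m0 ∈ cl q P (σ * l0), ∑ l ∈ (Icc 1 ⌊L⌋).filter (fun l => (q : ℤ) ∣ l - l0),
          |∑ m ∈ (Icc ⌈-M⌉ ⌊M⌋).filter (fun m => (q : ℤ) ∣ m - m0),
            ArithmeticFunction.vonMangoldt (l ^ 2 + m ^ 2).natAbs - 2 * M / q * (gq q l * SS l)| ≤
          C * L * M / (Real.log M) ^ A := by
        intro m0 hm0
        unfold cl at hm0
        rw [mem_filter] at hm0
        have hc1 := H.cop hm0.2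
        rw [mul_pow, hσ, one_mul] at hc1
        have hc2 : IsCoprime (⟨(l0 : ℤ), (m0 : ℤ)⟩ : ZI) ((q : ℕ) : ZI) := by
          exact LT.cop_of_norm hc1
        exact h M L l0 m0 hM3 hc2 h1 h2
      refine (sum_le_sum e4).trans ?_
      rw [sum_const, nsmul_eq_mul]
      refine mul_le_mul_of_nonneg_right ?_ hX
      have : (cl q P (σ * l0)).card ≤ q := by
        unfold cl
        refine (card_filter_le _ _).trans ?_
        rw [card_range]
      exact_mod_cast this
    refine (sum_le_sum e2).trans ?_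
    rw [sum_const, nsmul_eq_mul, card_range]
    apply le_of_eq
    ring

end Pool.Agent.J4.H63.LQ
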