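import Pool.Agent.J4.H63.LQ.Qt

/-!
# The condition for the trace modulo `8 D`
-/

set_option autoImplicit false

namespace Pool.Agent.J4.H63.LQ

open Pool.Agent.R441.Q4

/-- the condition: `z (D / z)_4` is primary, `z = a + m i` -/
def PD (D a m : ℤ) : Prop := Pr (⟨a, m⟩ * Q ⟨a, m⟩ (D : ZI))

lemma pr_zero : ¬ Pr (0 : ZI) := by
  intro h
  have := h.2
  rw [Zsqrtd.re_zero, Zsqrtd.im_zero] at this
  omega

lemma od_of_pr {z : ZI} {D : ℤ} (h : Pr (z * Q z (D : ZI))) : Od z := (od_mul.1 h.ev.od).1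

lemma cop_of_pr {z : ZI} {D : ℤ} (h : Pr (z * Q z (D : ZI))) : IsCoprime z (D : ZI) := by
  have ho := od_of_pr h
  apply isCoprime_of_prime_dvd
  · rintro ⟨h1, -⟩
    exact ho.ne h1
  · intro π hπ h1 h2
    obtain ⟨c, hc⟩ := h1
    have hc0 : c ≠ 0 := by
      rintro rfl
      rw [mul_zero] at hc
      exact ho.ne hc
    apply pr_zero
    have e : Q z (D : ZI) = 0 := by
      rw [hc, Q_mul_left hπ.ne_zero hc0, Q_prime hπ, q4_zero h2, zero_mul]
    rwa [e, mul_zero] at h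

lemma cop_norm_of_cop {z : ZI} {D : ℤ} (h : IsCoprime z (D : ZI)) : IsCoprime z.norm D := by
  apply cop_int
  rw [Zsqrtd.norm_eq_mul_conj]
  apply IsCoprime.mul_left h
  obtain ⟨u, v, huv⟩ := h
  refine ⟨star u, star v, ?_⟩
  have := congrArg star huv
  rw [star_add, star_mul, star_mul, star_one, star_intCast] at this
  rw [← this]
  ring

lemma cop_eight {n : ℤ} (h : n % 2 = 1) : IsCoprime n 8 := by
  have h1 : IsCoprime n 2 := by
    refine ⟨1, -(n / 2), ?_⟩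
    omega
  have e : (8 : ℤ) = 2 ^ 3 := by norm_num
  rw [e]
  exact h1.pow_right

/-- the norm is prime to `8 D` -/
lemma PD.cop {D a m : ℤ} (h : PD D a m) : IsCoprime (a ^ 2 + m ^ 2) ((8 * D.natAbs : ℕ) : ℤ) := by
  have h1 := cop_norm_of_cop (cop_of_pr h)
  have h2 := cop_eight (od_of_pr h)
  have h3 := h2.mul_right h1
  rw [norm_def'] at h3
  change IsCoprime (a ^ 2 + m ^ 2) (8 * D) at h3
  push_cast
  rcases abs_choice D with h4 | h4
  · rw [h4]
    exact h3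
  · rw [h4, mul_neg]
    exact h3.neg_right

lemma pr_star {z : ZI} (h : Pr z) : Pr (star z) := by
  have h1 := h.1
  have h2 := h.2
  unfold Pr
  rw [Zsqrtd.re_star, Zsqrtd.im_star]
  omega

lemma PD.neg {D a m : ℤ} (h : PD D a m) : PD D a (-m) := by
  unfold PD at h ⊢
  have e : (⟨a, -m⟩ : ZI) = star ⟨a, m⟩ := rfl
  have h1 := pr_star h
  rw [star_mul, ← Q_star (od_of_pr h), star_intCast, mul_comm] at h1
  rw [e]
  exact h1

/-- **periodicity** of the quartic symbol -/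
theorem Q_periodic {D : ℤ} (hD : D ≠ 0) {β γ : ZI} (hβ : Ev β) (hγ : Ev γ) (hc : IsCoprime β (D : ZI))
    (hc' : IsCoprime γ (D : ZI)) (h : ((8 * D : ℤ) : ZI) ∣ β - γ) : Q β (D : ZI) = Q γ (D : ZI) := by
  obtain ⟨k, n, rfl, hn⟩ := int_two_pow hD
  obtain ⟨u, hu⟩ := h
  have hre : β.re = γ.re + 8 * (2 ^ k * n) * u.re := by
    have := congrArg Zsqrtd.re hu
    rw [Zsqrtd.re_sub, Zsqrtd.re_mul, Zsqrtd.re_intCast, Zsqrtd.im_intCast] at this
    linarith
  have him : β.im = γ.im + 8 * (2 ^ k * n) * u.im := by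
    have := congrArg Zsqrtd.im hu
    rw [Zsqrtd.im_sub, Zsqrtd.im_mul, Zsqrtd.re_intCast, Zsqrtd.im_intCast] at this
    linarith
  obtain ⟨x, hx⟩ : ∃ x, x = (2 ^ k * n) * u.re := ⟨_, rfl⟩
  obtain ⟨y, hy⟩ : ∃ y, y = (2 ^ k * n) * u.im := ⟨_, rfl⟩
  rw [mul_assoc, ← hx] at hre
  rw [mul_assoc, ← hy] at him
  have e1 : Q β im1 = Q γ im1 := by
    rw [Q_unit hβ.od im1_norm, Q_unit hγ.od im1_norm]
    apply pow_unit_congr im1_norm
    have h1 := nrm_cast β
    have h2 := nrm_cast γ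
    rw [norm_def', hre, him] at h1
    rw [norm_def'] at h2
    have h3 := hγ.re
    have h4 := hγ.im
    have h5 : (nrm β : ℤ) = nrm γ + 16 * (γ.re * x + γ.im * y + 4 * x ^ 2 + 4 * y ^ 2) := by
      rw [h1, h2]
      ring
    omega
  have e2 : Q β oi ^ 2 = Q γ oi ^ 2 := by
    rw [sq_oi hβ, sq_oi hγ]
    congr 1
    unfold e8
    have e : (β.re + β.im) % 8 = (γ.re + γ.im) % 8 := by
      rw [hre, him]
      omega
    rw [e]
  have e3 : Q β 2 = Q γ 2 := by
    have e : (2 : ZI) = im1 ^ 3 * oi ^ 2 := by decide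
    rw [e, Q_mul hβ.od, Q_mul hγ.od, Q_pow hβ.od, Q_pow hγ.od, Q_pow hβ.od, Q_pow hγ.od, e1, e2]
  have hcn : IsCoprime (n : ZI) β := by
    push_cast at hc
    exact (hc.of_mul_right_right).symm
  have hcn' : IsCoprime (n : ZI) γ := by
    push_cast at hc'
    exact (hc'.of_mul_right_right).symm
  have e4 : Q (n : ZI) β = Q (n : ZI) γ := by
    apply Q_per (ev_int hn).od
    rw [hu]
    push_cast
    exact ⟨8 * 2 ^ k * u, by ring⟩
  have e5 : Q β (n : ZI) = Q γ (n : ZI) := by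
    rw [rec_rat' hn hβ hcn, rec_rat' hn hγ hcn', e4]
    have e : β.im % 4 = γ.im % 4 := by
      rw [him]
      omega
    rw [e]
  push_cast
  rw [Q_mul hβ.od, Q_mul hγ.od, Q_pow hβ.od, Q_pow hγ.od, e3, e5]

lemma cop_mod {D : ℤ} {z w : ZI} (h : IsCoprime z (D : ZI)) (hd : (D : ZI) ∣ z - w) : IsCoprime w (D : ZI) := by
  obtain ⟨k, hk⟩ := hd
  have e : w = z + (D : ZI) * (-k) := by linear_combination -hk
  rw [e]
  exact (IsCoprime.add_mul_left_left_iff).2 h

lemma PD.congr {D : ℤ} (hD : D ≠ 0) {a m a' m' : ℤ} (ha : ((8 * D.natAbs : ℕ) : ℤ) ∣ a - a')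
    (hm : ((8 * D.natAbs : ℕ) : ℤ) ∣ m - m') (h : PD D a m) : PD D a' m' := by
  unfold PD at h ⊢
  have hnat : (8 * D) ∣ ((8 * D.natAbs : ℕ) : ℤ) := by
    push_cast
    exact mul_dvd_mul_left 8 (self_dvd_abs D)
  obtain ⟨x, hx⟩ := hnat.trans ha
  obtain ⟨y, hy⟩ := hnat.trans hm
  obtain ⟨z, hz⟩ : ∃ z, z = (⟨a, m⟩ : ZI) := ⟨_, rfl⟩
  obtain ⟨z', hz'⟩ : ∃ z', z' = (⟨a', m'⟩ : ZI) := ⟨_, rfl⟩
  rw [← hz] at h
  rw [← hz']
  have hd : ((8 * D : ℤ) : ZI) ∣ z - z' := by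
    refine ⟨⟨x, y⟩, ?_⟩
    rw [hz, hz']
    apply Zsqrtd.ext
    · rw [Zsqrtd.re_sub, Zsqrtd.re_mul, Zsqrtd.re_intCast, Zsqrtd.im_intCast]
      linarith
    · rw [Zsqrtd.im_sub, Zsqrtd.im_mul, Zsqrtd.re_intCast, Zsqrtd.im_intCast]
      linarith
  have ho := od_of_pr h
  have hc := cop_of_pr h
  have hDd : (D : ZI) ∣ z - z' := by
    refine Dvd.dvd.trans ?_ hd
    push_cast
    exact dvd_mul_left _ _
  have h8 : (8 : ZI) ∣ z - z' := by
    refine Dvd.dvd.trans ?_ hd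
    push_cast
    exact dvd_mul_right _ _
  have hc' := cop_mod hc hDd
  obtain ⟨w, hw, hpr⟩ := exists_pr ho
  obtain ⟨v, hv⟩ := h8
  have e8r : (8 : ZI).re = 8 := by decide
  have e8i : (8 : ZI).im = 0 := by decide
  -- the same unit works
  have hpr' : Pr (w * z') := by
    have e : w * z' = w * z - 8 * (w * v) := by linear_combination -w * hv
    have h1 := hpr.1
    have h2 := hpr.2
    rw [e]
    unfold Pr
    rw [Zsqrtd.re_sub, Zsqrtd.im_sub, Zsqrtd.re_mul (8 : ZI), Zsqrtd.im_mul (8 : ZI), e8r, e8i]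
    omega
  have hQ : ∀ y : ZI, Q y (D : ZI) = Q (w * y) (D : ZI) := by
    intro y
    apply Q_assoc
    obtain ⟨u, hu⟩ := isUnit_iff_norm.2 hw
    rw [← hu, mul_comm]
    exact (associated_mul_unit_right _ _ u.isUnit)
  have key : Q (w * z) (D : ZI) = Q (w * z') (D : ZI) := by
    have hwc : ∀ y : ZI, IsCoprime y (D : ZI) → IsCoprime (w * y) (D : ZI) := by
      intro y hy
      refine IsCoprime.mul_left ?_ hy
      exact ((cop_unit hw (D : ZI))).symm
    refine Q_periodic hD hpr.ev hpr'.ev (hwc z hc) (hwc z' hc') ?_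
    rw [← mul_sub]
    exact Dvd.dvd.mul_left hd w
  -- the value of the symbol
  have hval : ∀ y : ZI, Pr (w * y) → (Pr (y * Q y (D : ZI)) ↔ Q (w * y) (D : ZI) = w) := by
    intro y hy
    have e : y = star w * (w * y) := by
      rw [← mul_assoc, mul_comm (star w) w, unit_star_mul hw, one_mul]
    constructor
    · intro h1
      have hn : (Q (w * y) (D : ZI)).norm = 1 := by
        apply Q_norm hy.ev.od
        refine IsCoprime.mul_left ?_ (cop_of_pr h1)
        exact ((cop_unit hw (D : ZI))).symm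
      rw [hQ y] at h1
      have e2 : y * Q (w * y) (D : ZI) = (star w * Q (w * y) (D : ZI)) * (w * y) := by
        calc y * Q (w * y) (D : ZI) = (star w * (w * y)) * Q (w * y) (D : ZI) := by rw [← e]
          _ = _ := by ring
      rw [e2] at h1
      have h3 := pr_unit (by rw [Zsqrtd.norm_mul, Zsqrtd.norm_conj, hw, hn]; norm_num) hy h1
      calc Q (w * y) (D : ZI) = (w * star w) * Q (w * y) (D : ZI) := by rw [unit_star_mul hw, one_mul]
        _ = w * (star w * Q (w * y) (D : ZI)) := by ring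
        _ = w := by rw [h3, mul_one]
    · intro h1
      rw [hQ y, h1, mul_comm]
      exact hy
  rw [hval z' hpr', ← key]
  exact (hval z hpr).1 h

end Pool.Agent.J4.H63.LQ
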