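import Pool.Agent.N782.GN.LTb
import Pool.Agent.R441.Q4.S

/-!
# The number of points of `y² = x³ + A x + B` modulo `p`; quartic twists of `y² = x³ - x`
-/

set_option autoImplicit false

namespace Pool.Agent.J4.H63.LQ

open Finset Pool.Agent.R441.Q4

/-- the number of the solutions of `y² = x³ + A x + B` modulo `p` -/
def pts (A B : ℤ) (p : ℕ) : ℕ :=
  ((range p ×ˢ range p).filter
    (fun xy : ℕ × ℕ => (p : ℤ) ∣ (xy.2 : ℤ) ^ 2 - ((xy.1 : ℤ) ^ 3 + A * (xy.1 : ℤ) + B))).card

/-- the trace of Frobenius of `y² = x³ + A x + B` at `p` -/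
def tr (A B : ℤ) (p : ℕ) : ℤ := (p : ℤ) - pts A B p

section field

variable {F : Type} [Field F] [Fintype F] [DecidableEq F]

/-- the sum of the quadratic character over the values of a cubic -/
noncomputable def CS (a b : F) : ℤ := ∑ x : F, quadraticChar F (x ^ 3 + a * x + b)

/-- the sum for `x (x² + a x + b)` -/
noncomputable def TS (a b : F) : ℤ := ∑ x : F, quadraticChar F (x * (x ^ 2 + a * x + b))

theorem card_roots (h2 : ringChar F ≠ 2) (t b : F) :
    ((univ.filter (fun x : F => x ^ 2 - t * x + b = 0)).card : ℤ) = quadraticChar F (t ^ 2 - 4 * b) + 1 := by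
  have h20 : (2 : F) ≠ 0 := Ring.two_ne_zero h2
  have := quadraticChar_card_sqrts h2 (t ^ 2 - 4 * b)
  rw [← this]
  congr 1
  refine card_bij' (fun x _ => 2 * x - t) (fun y _ => (y + t) / 2) ?_ ?_ ?_ ?_
  · intro x hx
    simp only [mem_filter, mem_univ, true_and] at hx
    simp only [Set.mem_toFinset, Set.mem_ofPred_eq]
    linear_combination 4 * hx
  · intro y hy
    simp only [Set.mem_toFinset, Set.mem_ofPred_eq] at hy
    simp only [mem_filter, mem_univ, true_and]
    field_simp
    linear_combination hy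
  · intro x _
    field_simp
    ring
  · intro y _
    field_simp
    ring

/-- sums over isogenous curves -/
theorem TS_isog (h2 : ringChar F ≠ 2) (a b : F) (hb : b ≠ 0) : TS a b = TS (-2 * a) (a ^ 2 - 4 * b) := by
  have h1 : TS a b = ∑ x ∈ univ.filter (fun x : F => x ≠ 0), quadraticChar F ((x + b / x) + a) := by
    unfold TS
    rw [sum_filter]
    refine sum_congr rfl fun x _ => ?_
    split_ifs with hx
    · have e : x * (x ^ 2 + a * x + b) = x ^ 2 * ((x + b / x) + a) := by
        field_simp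
        ring
      rw [e, map_mul, map_pow, quadraticChar_sq_one hx, one_mul]
    · push Not at hx
      rw [hx, zero_mul, MulChar.map_zero]
  have h3 : ∑ x ∈ univ.filter (fun x : F => x ≠ 0), quadraticChar F ((x + b / x) + a) =
      ∑ t : F, ((univ.filter (fun x : F => x ^ 2 - t * x + b = 0)).card : ℤ) * quadraticChar F (t + a) := by
    rw [← sum_fiberwise (univ.filter (fun x : F => x ≠ 0)) (fun x : F => x + b / x)]
    refine sum_congr rfl fun t _ => ?_
    have e : ((univ.filter (fun x : F => x ≠ 0)).filter (fun x : F => x + b / x = t)) =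
        univ.filter (fun x : F => x ^ 2 - t * x + b = 0) := by
      ext x
      simp only [mem_filter, mem_univ, true_and]
      constructor
      · rintro ⟨hx, h⟩
        rw [← h]
        field_simp
        ring
      · intro h
        have hx : x ≠ 0 := by
          rintro rfl
          apply hb
          linear_combination h
        refine ⟨hx, ?_⟩
        field_simp
        linear_combination h
    rw [e, ← nsmul_eq_mul, ← sum_const]
    refine sum_congr rfl fun x hx => ?_
    rw [← e] at hx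
    rw [(mem_filter.1 hx).2]
  rw [h1, h3]
  have h4 : ∑ t : F, quadraticChar F (t + a) = 0 := by
    rw [← Equiv.sum_comp (Equiv.addRight (-a))]
    simp only [Equiv.coe_addRight, neg_add_cancel_right]
    exact quadraticChar_sum_zero h2
  have h5 : ∑ t : F, ((univ.filter (fun x : F => x ^ 2 - t * x + b = 0)).card : ℤ) * quadraticChar F (t + a) =
      ∑ t : F, quadraticChar F ((t + a) * (t ^ 2 - 4 * b)) + ∑ t : F, quadraticChar F (t + a) := by
    rw [← sum_add_distrib]
    refine sum_congr rfl fun t _ => ?_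
    rw [card_roots h2, map_mul]
    ring
  rw [h5, h4, add_zero]
  unfold TS
  rw [← Equiv.sum_comp (Equiv.addRight (-a))]
  refine sum_congr rfl fun x _ => ?_
  congr 1
  simp only [Equiv.coe_addRight]
  ring

/-- the curves `y² = x³ - 11 k² x + 14 k³` -/
theorem CS_eleven (h2 : ringChar F ≠ 2) (k : F) (hk : k ≠ 0) :
    CS (-11 * k ^ 2) (14 * k ^ 3) = CS (-(k ^ 2)) 0 := by
  have h20 : (2 : F) ≠ 0 := Ring.two_ne_zero h2
  have h1 : CS (-11 * k ^ 2) (14 * k ^ 3) = TS (6 * k) (k ^ 2) := by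
    unfold CS TS
    rw [← Equiv.sum_comp (Equiv.addRight (2 * k))]
    refine sum_congr rfl fun x _ => ?_
    congr 1
    simp only [Equiv.coe_addRight]
    ring
  rw [h1, TS_isog h2 _ _ (pow_ne_zero 2 hk)]
  unfold CS TS
  rw [← Equiv.sum_comp (Equiv.addRight (4 * k))]
  have h4 : (4 : F) ≠ 0 := by
    have : (4 : F) = 2 * 2 := by norm_num
    rw [this]
    exact mul_ne_zero h20 h20
  rw [← Equiv.sum_comp (Equiv.mulLeft₀ (4 : F) h4)]
  refine sum_congr rfl fun x _ => ?_
  have e1 : (Equiv.mulLeft₀ (4 : F) h4) x = 4 * x := rfl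
  rw [e1]
  simp only [Equiv.coe_addRight]
  have e2 : (4 * x + 4 * k) * ((4 * x + 4 * k) ^ 2 + -2 * (6 * k) * (4 * x + 4 * k) + ((6 * k) ^ 2 - 4 * k ^ 2)) =
      (2 ^ 3) ^ 2 * (x ^ 3 + -(k ^ 2) * x + 0) := by ring
  rw [e2, map_mul, map_pow, quadraticChar_sq_one (pow_ne_zero 3 h20), one_mul]

end field

variable {p : ℕ} [hF : Fact p.Prime]

theorem rc2 (h2 : p ≠ 2) : ringChar (ZMod p) ≠ 2 := by rwa [ZMod.ringChar_zmod_n]

theorem tr_eq_CS (A B : ℤ) (h2 : p ≠ 2) : tr A B p = - CS (A : ZMod p) (B : ZMod p) := by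
  have hcard : ((pts A B p : ℕ) : ℤ) =
      ∑ x : ZMod p, (((univ : Finset (ZMod p)).filter fun y => y ^ 2 = x ^ 3 + (A : ZMod p) * x + (B : ZMod p)).card : ℤ) := by
    unfold pts
    rw [← Nat.cast_sum, ← Finset.card_sigma]
    congr 1
    refine Finset.card_bij' (fun xy _ => (⟨(xy.1 : ZMod p), (xy.2 : ZMod p)⟩ : Σ _ : ZMod p, ZMod p))
      (fun q _ => (q.1.val, q.2.val)) ?_ ?_ ?_ ?_
    · rintro ⟨x, y⟩ h
      simp only [mem_filter, mem_product, mem_range] at h
      simp only [mem_sigma, mem_univ, mem_filter, true_and]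
      obtain ⟨_, h⟩ := h
      rw [← ZMod.intCast_zmod_eq_zero_iff_dvd] at h
      push_cast at h
      linear_combination h
    · rintro ⟨x, y⟩ h
      simp only [mem_sigma, mem_univ, mem_filter, true_and] at h
      simp only [mem_filter, mem_product, mem_range]
      refine ⟨⟨ZMod.val_lt _, ZMod.val_lt _⟩, ?_⟩
      rw [← ZMod.intCast_zmod_eq_zero_iff_dvd]
      push_cast
      simp only [ZMod.natCast_val, ZMod.cast_id', id_eq]
      linear_combination h
    · rintro ⟨x, y⟩ h
      simp only [mem_filter, mem_product, mem_range] at h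
      simp only [Prod.mk.injEq]
      exact ⟨ZMod.val_cast_of_lt h.1.1, ZMod.val_cast_of_lt h.1.2⟩
    · rintro ⟨x, y⟩ h
      simp
  have hfib : ∀ x : ZMod p, (((univ : Finset (ZMod p)).filter fun y => y ^ 2 = x ^ 3 + (A : ZMod p) * x + (B : ZMod p)).card : ℤ) =
      quadraticChar (ZMod p) (x ^ 3 + (A : ZMod p) * x + (B : ZMod p)) + 1 := by
    intro x
    have := quadraticChar_card_sqrts (rc2 h2) (x ^ 3 + (A : ZMod p) * x + (B : ZMod p))
    rw [← this]
    congr 2
    ext y
    simp
  unfold tr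
  rw [hcard]
  simp_rw [hfib]
  rw [Finset.sum_add_distrib, sum_const, card_univ, ZMod.card]
  unfold CS
  simp only [nsmul_eq_mul, mul_one]
  ring

/-- the trace is zero at `p = 3` modulo `4` -/
theorem tr_three (A : ℤ) (h3 : p % 4 = 3) : tr A 0 p = 0 := by
  have h2 : p ≠ 2 := by omega
  rw [tr_eq_CS A 0 h2]
  have hm : quadraticChar (ZMod p) (-1) = -1 := by
    rw [quadraticChar_neg_one (rc2 h2), ZMod.card, ZMod.χ₄_nat_eq_if_mod_four]
    have h4 : p % 2 ≠ 0 := by omega
    rw [if_neg h4, if_neg (by omega)]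
  have h5 : CS (A : ZMod p) ((0 : ℤ) : ZMod p) = - CS (A : ZMod p) ((0 : ℤ) : ZMod p) := by
    conv_lhs => unfold CS
    rw [← Equiv.sum_comp (Equiv.neg (ZMod p))]
    unfold CS
    rw [← sum_neg_distrib]
    refine sum_congr rfl fun x _ => ?_
    have e : (Equiv.neg (ZMod p) x) ^ 3 + (A : ZMod p) * (Equiv.neg (ZMod p) x) + ((0 : ℤ) : ZMod p) =
        -1 * (x ^ 3 + (A : ZMod p) * x + ((0 : ℤ) : ZMod p)) := by
      simp only [Equiv.neg_apply, Int.cast_zero]
      ring
    rw [e, map_mul, hm]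
    ring
  omega

/-- isogenous curves have the same traces -/
theorem tr_eleven (k : ℤ) (h2 : p ≠ 2) (hk : ¬ (p : ℤ) ∣ k) : tr (-11 * k ^ 2) (14 * k ^ 3) p = tr (-k ^ 2) 0 p := by
  have hk0 : (k : ZMod p) ≠ 0 := by
    rwa [Ne, ZMod.intCast_zmod_eq_zero_iff_dvd]
  rw [tr_eq_CS _ _ h2, tr_eq_CS _ _ h2]
  push_cast
  rw [CS_eleven (rc2 h2) _ hk0]

end Pool.Agent.J4.H63.LQ
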