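import Pool.Agent.J4.H63.LQ.Pt

/-!
# The trace of `y² = x³ - D x` at a prime `p = a² + m²`
-/

set_option autoImplicit false

namespace Pool.Agent.J4.H63.LQ

open Finset Pool.Agent.R441.Q4

/-- primary numbers: `1` modulo `2 + 2 i` -/
def Pr (z : ZI) : Prop := z.im % 2 = 0 ∧ (z.re + z.im) % 4 = 1

lemma Pr.re {z : ZI} (h : Pr z) : z.re % 2 = 1 := by
  have h1 := h.1
  have h2 := h.2
  omega

lemma Pr.ev {z : ZI} (h : Pr z) : Ev z := ev_of h.re h.1

lemma exists_pr {z : ZI} (h : Od z) : ∃ w : ZI, w.norm = 1 ∧ Pr (w * z) := by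
  obtain ⟨w, hw, he⟩ := exists_ev h
  have h1 := he.re
  have h2 := he.im
  by_cases h3 : ((w * z).re + (w * z).im) % 4 = 1
  · exact ⟨w, hw, he.im, h3⟩
  · refine ⟨-w, by rw [Zsqrtd.norm_neg]; exact hw, ?_⟩
    rw [neg_mul]
    unfold Pr
    rw [Zsqrtd.re_neg, Zsqrtd.im_neg]
    omega

lemma pr_unit {v z : ZI} (hv : v.norm = 1) (hz : Pr z) (h : Pr (v * z)) : v = 1 := by
  have h1 := hz.re
  have h2 := hz.1
  have h3 := hz.2
  have h4 := h.1
  have h5 := h.2
  rcases unit_cases hv with rfl | rfl | rfl | rfl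
  · rfl
  · exfalso
    simp only [im1, Zsqrtd.im_mul] at h4
    omega
  · exfalso
    rw [neg_one_mul, Zsqrtd.re_neg, Zsqrtd.im_neg] at h5
    omega
  · exfalso
    simp only [im1, Zsqrtd.im_mul, Zsqrtd.im_neg, Zsqrtd.re_neg] at h4
    omega

section res

variable {p : ℕ} [hF : Fact p.Prime]

theorem exists_res (h2 : p ≠ 2) {c d : ℤ} (hcd : c ^ 2 + d ^ 2 = p) :
    ∃ ρ : ZI →+* ZMod p, Res (⟨c, d⟩ : ZI) (ZMod p) ρ := by
  have hop := op_of_norm hF.out h2 hcd
  obtain ⟨hd0, hc0⟩ := Pool.Agent.N782.GN.LT.prime_ne_sq hF.out hcd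
  have hc : (c : ZMod p) ≠ 0 := by
    rw [Ne, ZMod.intCast_zmod_eq_zero_iff_dvd]
    intro h
    have h1 : (p : ℤ) ≤ |c| := Int.le_of_dvd (abs_pos.2 hc0) ((dvd_abs _ _).2 h)
    have h3 : 0 < d ^ 2 := by positivity
    have h4 : (p : ℤ) * p ≤ |c| * |c| := mul_self_le_mul_self (by positivity) h1
    rw [abs_mul_abs_self] at h4
    have h5 : (1 : ℤ) ≤ p := by exact_mod_cast hF.out.one_lt.le
    nlinarith
  obtain ⟨ρ, h1, -⟩ := exists_rho hcd hc
  refine ⟨ρ, hop, ?_, ?_, ?_⟩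
  · intro x
    refine ⟨((x.val : ℕ) : ZI), ?_⟩
    rw [map_natCast, ZMod.natCast_zmod_val]
  · intro a
    constructor
    · intro ha
      by_contra hn
      have hcop : IsCoprime (⟨c, d⟩ : ZI) a := (hop.pr.irreducible.coprime_iff_not_dvd).2 hn
      obtain ⟨u, v, huv⟩ := hcop
      have := congrArg ρ huv
      rw [map_add, map_mul, map_mul, h1, ha, mul_zero, mul_zero, add_zero, map_one] at this
      exact zero_ne_one this
    · rintro ⟨k, rfl⟩
      rw [map_mul, h1, zero_mul]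
  · rw [ZMod.card]
    unfold nrm
    rw [norm_def']
    show p = (c ^ 2 + d ^ 2).natAbs
    rw [hcd, Int.natAbs_natCast]

end res

section twist

variable {π : ZI} {F : Type} [Field F] [Fintype F] {ρ : ZI →+* F} [DecidableEq F]

lemma eta_eq (h : Res π F ρ) (x : F) : ((quadraticChar F x : ℤ) : ZI) = h.chi x ^ 2 := by
  by_cases hx : x = 0
  · rw [hx, MulChar.map_zero, MulChar.map_zero]
    simp
  have hm := h.pp.nrm_mod
  apply h.pp.eq_val
  · rcases quadraticChar_dichotomy hx with h1 | h1 <;> rw [h1]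
    · right; decide
    · right; decide
  · right
    rw [sq, Zsqrtd.norm_mul, h.chi_norm hx]
    norm_num
  · rw [← h.ker, map_sub, map_pow, h.rho_chi, map_intCast, quadraticChar_eq_pow_of_char_ne_two' h.char_ne, h.card,
      ← pow_mul, sub_eq_zero]
    congr 1
    omega

lemma chi_sq_neg_one (h : Res π F ρ) : h.chi (-1) ^ 2 = 1 := by
  rw [← eta_eq h, quadraticChar_neg_one h.char_ne, h.card, ZMod.χ₄_nat_eq_if_mod_four]
  have hm := h.pp.nrm_mod
  rw [if_neg (by omega), if_pos hm]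
  simp

/-- the sums of the quadratic character over the quartic twists -/
theorem sum_twist (h : Res π F ρ) {a : F} (ha : a ≠ 0) :
    ((CS (-a) 0 : ℤ) : ZI) = star (h.chi a) * h.J + h.chi a * star h.J := by
  have hst : ∀ x : F, star (h.chi x ^ 2) = h.chi x ^ 2 := by
    intro x
    rw [← eta_eq h, star_intCast]
  have hkey : ∑ u : F, h.chi u * h.chi (u - a) ^ 2 = star (h.chi a) * h.J := by
    rw [← Equiv.sum_comp (Equiv.mulLeft₀ a ha), h.J_def, Finset.mul_sum]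
    refine Finset.sum_congr rfl fun v _ => ?_
    have e1 : (Equiv.mulLeft₀ a ha) v = a * v := rfl
    have e2 : a * v - a = a * (-1 * (1 - v)) := by ring
    rw [e1, e2, map_mul, map_mul, map_mul, mul_pow, mul_pow, chi_sq_neg_one h, h.star_chi]
    ring
  have hkey2 : ∑ u : F, star (h.chi u) * h.chi (u - a) ^ 2 = h.chi a * star h.J := by
    have := congrArg star hkey
    rw [star_sum] at this
    rw [star_mul, star_star, mul_comm] at this
    rw [← this]
    refine Finset.sum_congr rfl fun u _ => ?_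
    rw [star_mul, hst, mul_comm]
  rw [← hkey, ← hkey2, ← Finset.sum_add_distrib]
  have e1 : ((CS (-a) 0 : ℤ) : ZI) = ∑ x : F, h.chi (x ^ 2) * h.chi (x ^ 2 - a) ^ 2 := by
    unfold CS
    rw [Int.cast_sum]
    refine Finset.sum_congr rfl fun x _ => ?_
    have e2 : x ^ 3 + -a * x + 0 = x * (x ^ 2 - a) := by ring
    rw [e2, eta_eq h, map_mul, mul_pow, map_pow]
  rw [e1, ← Finset.sum_fiberwise Finset.univ (fun x : F => x ^ 2)]
  refine Finset.sum_congr rfl fun u _ => ?_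
  have e3 : ∑ x ∈ Finset.univ.filter (fun x : F => x ^ 2 = u), h.chi (x ^ 2) * h.chi (x ^ 2 - a) ^ 2 =
      ((Finset.univ.filter (fun x : F => x ^ 2 = u)).card : ZI) * (h.chi u * h.chi (u - a) ^ 2) := by
    rw [← nsmul_eq_mul, ← Finset.sum_const]
    refine Finset.sum_congr rfl fun x hx => ?_
    rw [(Finset.mem_filter.1 hx).2]
  rw [e3]
  have e4 := quadraticChar_card_sqrts h.char_ne u
  have e5 : ({x : F | x ^ 2 = u}.toFinset) = Finset.univ.filter (fun x : F => x ^ 2 = u) := by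
    ext x; simp
  rw [e5] at e4
  have e6 : ((Finset.univ.filter (fun x : F => x ^ 2 = u)).card : ZI) = h.chi u ^ 2 + 1 := by
    rw [← eta_eq h]
    exact_mod_cast congrArg (Int.cast : ℤ → ZI) e4
  rw [e6, h.star_chi]
  ring

end twist

section trace

variable {p : ℕ} [hF : Fact p.Prime]

theorem tr_one (h2 : p ≠ 2) : tr (-1) 0 p = Pool.Agent.H304R2.EC.an p := by
  have h1 := Pool.Agent.N782.GN.LT.tr_eq (p := p) 1 h2 (by
    intro h
    have := hF.out.one_lt
    have := Nat.le_of_dvd one_pos h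
    omega)
  have h3 := Pool.Agent.N782.GN.LT.tr_eq_SS (p := p) 1 h2
  rw [h1] at h3
  rw [Nat.cast_one, jacobiSym.one_left, one_mul] at h3
  rw [tr_eq_CS _ _ h2, h3]
  unfold CS Pool.Agent.H304R2.EC.Pts.SS
  congr 1
  refine sum_congr rfl fun x _ => ?_
  unfold Pool.Agent.H304R2.EC.Pts.qc
  congr 1
  push_cast
  ring

/-- the Jacobi sum for a primary number -/
theorem J_eq (h2 : p ≠ 2) {c d : ℤ} (hcd : c ^ 2 + d ^ 2 = p) (hc : Pr (⟨c, d⟩ : ZI)) {ρ : ZI →+* ZMod p}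
    (h : Res (⟨c, d⟩ : ZI) (ZMod p) ρ) : h.J = -⟨c, d⟩ := by
  have hc1 : c % 2 = 1 := hc.re
  have hc2 : d % 2 = 0 := hc.1
  have hc3 : (c + d) % 4 = 1 := hc.2
  have h3 := sum_twist h (a := 1) one_ne_zero
  rw [map_one, star_one, one_mul, one_mul] at h3
  have h4 := tr_eq_CS (p := p) (-1) 0 h2
  rw [tr_one h2, Pool.Agent.N782.GN.LT.an_prime hF.out hcd hc1 hc2, ZMod.χ₄_int_one_mod_four hc3] at h4
  push_cast at h4
  have h5 := h.J_sq hc2
  rcases sq_eq_sq_iff_eq_or_eq_neg.1 h5 with h6 | h6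
  · exfalso
    have h7 := congrArg Zsqrtd.re h3
    rw [h6, Zsqrtd.re_intCast, Zsqrtd.re_add, Zsqrtd.re_star] at h7
    simp only at h7
    omega
  · exact h6

/-- the trace at a prime which is the norm of a primary number -/
theorem tr_primary (h2 : p ≠ 2) {c d : ℤ} (hcd : c ^ 2 + d ^ 2 = p) (hc : Pr (⟨c, d⟩ : ZI)) {D : ℤ}
    (hD : ¬ (p : ℤ) ∣ D) :
    ((tr (-D) 0 p : ℤ) : ZI) = star (Q ⟨c, d⟩ D) * ⟨c, d⟩ + Q ⟨c, d⟩ D * star ⟨c, d⟩ := by
  obtain ⟨ρ, h⟩ := exists_res h2 hcd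
  have hD0 : (D : ZMod p) ≠ 0 := by
    rwa [Ne, ZMod.intCast_zmod_eq_zero_iff_dvd]
  have h1 := sum_twist h hD0
  have h3 := tr_eq_CS (p := p) (-D) 0 h2
  have h6 : ρ (D : ZI) = (D : ZMod p) := map_intCast ρ D
  have h4 : h.chi (D : ZMod p) = Q ⟨c, d⟩ D := by
    rw [Q_prime h.pp.pr, ← h6, h.chi_map]
  rw [J_eq h2 hcd hc h, h4] at h1
  rw [h3]
  push_cast at h1 ⊢
  rw [h1, star_neg]
  ring

/-- **the trace at `p = a² + m²`** -/
theorem tr_iff (h2 : p ≠ 2) {z : ZI} (hz : z.norm = p) {D : ℤ} (hD : ¬ (p : ℤ) ∣ D) :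
    tr (-D) 0 p = 2 * z.re ↔ Pr (z * Q z D) := by
  have hod : Od z := by
    unfold Od
    rw [hz]
    have := hF.out.eq_two_or_odd
    omega
  obtain ⟨w, hw, hpr⟩ := exists_pr hod
  obtain ⟨π, hπ⟩ : ∃ π, π = w * z := ⟨_, rfl⟩
  rw [← hπ] at hpr
  have hzw : z = star w * π := by
    rw [hπ, ← mul_assoc, mul_comm (star w) w, unit_star_mul hw, one_mul]
  have hn : π.norm = p := by rw [hπ, Zsqrtd.norm_mul, hw, hz, one_mul]
  obtain ⟨c, d⟩ := π
  have hcd : c ^ 2 + d ^ 2 = p := by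
    rw [norm_def'] at hn
    exact hn
  obtain ⟨hd0, hc0⟩ := Pool.Agent.N782.GN.LT.prime_ne_sq hF.out hcd
  have hc1 : c % 2 = 1 := hpr.re
  have hc2 : d % 2 = 0 := hpr.1
  have hQ : Q z D = Q ⟨c, d⟩ D := by
    apply Q_assoc
    rw [hzw]
    have hu : IsUnit (star w) := by
      rw [isUnit_iff_norm, Zsqrtd.norm_conj]
      exact hw
    obtain ⟨u, hu⟩ := hu
    rw [← hu, mul_comm]
    exact (associated_mul_unit_left _ _ u.isUnit)
  have ht := tr_primary h2 hcd hpr hD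
  have hop := op_of_norm hF.out h2 hcd
  have hχ : (Q ⟨c, d⟩ D).norm = 1 := by
    rw [Q_prime hop.pr]
    apply q4_norm hop
    intro h
    apply hD
    obtain ⟨k, hk⟩ := h
    have h5 := congrArg Zsqrtd.norm hk
    rw [Zsqrtd.norm_mul, hn, Zsqrtd.norm_intCast] at h5
    have h6 : (p : ℤ) ∣ D * D := ⟨_, h5⟩
    rcases (Nat.prime_iff_prime_int.1 hF.out).dvd_or_dvd h6 with h | h <;> exact h
  rw [hQ]
  have ht' : tr (-D) 0 p = 2 * (star (Q ⟨c, d⟩ D) * ⟨c, d⟩).re := by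
    have h7 := congrArg Zsqrtd.re ht
    have h8 : Q ⟨c, d⟩ D * star (⟨c, d⟩ : ZI) = star (star (Q ⟨c, d⟩ D) * ⟨c, d⟩) := by
      rw [star_mul, star_star, mul_comm]
    rw [h8, Zsqrtd.re_intCast, Zsqrtd.re_add, Zsqrtd.re_star] at h7
    linarith
  rw [ht', hzw]
  generalize Q (⟨c, d⟩ : ZI) D = χ at hχ ⊢
  constructor
  · intro h
    have h1 : star χ = star w := by
      rcases unit_cases hχ with rfl | rfl | rfl | rfl <;> rcases unit_cases hw with rfl | rfl | rfl | rfl <;>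
        first
        | rfl
        | (exfalso
           simp only [im1, Zsqrtd.re_mul, Zsqrtd.re_star, Zsqrtd.im_star, Zsqrtd.re_one, Zsqrtd.im_one, Zsqrtd.re_neg,
             Zsqrtd.im_neg] at h
           omega)
    have h2 : χ = w := star_injective h1
    rw [h2, mul_right_comm, mul_comm (star w) w, unit_star_mul hw, one_mul]
    exact hpr
  · intro h
    have e : star w * (⟨c, d⟩ : ZI) * χ = (star w * χ) * ⟨c, d⟩ := by ring
    rw [e] at h
    have h1 : star w * χ = 1 := by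
      apply pr_unit _ hpr h
      rw [Zsqrtd.norm_mul, Zsqrtd.norm_conj, hw, hχ]
      norm_num
    have h2 : χ = w := by
      calc χ = (w * star w) * χ := by rw [unit_star_mul hw, one_mul]
        _ = w * (star w * χ) := by ring
        _ = w := by rw [h1, mul_one]
    rw [h2]

end trace

end Pool.Agent.J4.H63.LQ
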